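import Pool.Agent.MP_e4cac8_mp.Cont

/-! The sharper bound for the angular part of the gradient. -/

open Set MeasureTheory
open Pool.Agent.MP_0b7119_mp.G

namespace Pool.Agent.MP_e4cac8_mp

set_option linter.unusedSectionVars false

variable {E S : Type} [NormedAddCommGroup E] [InnerProductSpace ℝ E] [FiniteDimensional ℝ E]
  [MeasurableSpace E] [BorelSpace E] [NormedAddCommGroup S] [InnerProductSpace ℂ S]
  [CompleteSpace S] [FiniteDimensional ℂ S] {d : ℕ}
  {e : OrthonormalBasis (Fin d) ℝ E} {α : Fin d → S →L[ℂ] S} {β : S →L[ℂ] S} {m : ℝ}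

namespace Alg2

theorem nsq (x y : S) (t : ℝ) :
    ‖x - (t : ℂ) • y‖ ^ 2 = ‖x‖ ^ 2 - 2 * t * (inner ℂ y x).re + t ^ 2 * ‖y‖ ^ 2 := by
  rw [norm_sub_sq (𝕜 := ℂ), inner_smul_right, norm_smul, mul_pow, Complex.norm_real,
    Real.norm_eq_abs, sq_abs, ← inner_conj_symm y x, Complex.conj_re]
  simp only [RCLike.re_to_complex, Complex.re_ofReal_mul]
  ring

theorem key (h : IsDiracRep α β) (e : OrthonormalBasis (Fin d) ℝ E) (hd : 2 ≤ d) {χ : S}
    (hχ : ‖χ‖ = 1) (u : Fin d → S) (ν : Fin d → ℝ) (hν : ∀ j, ν j = (inner ℂ χ (u j)).re)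
    {N : S} (hN : N = ∑ j, (ν j : ℂ) • α j χ) :
    ((d : ℝ) - 1) * (∑ j, ν j ^ 2) * ‖∑ j, α j (u j) - N‖ ^ 2 +
        (inner ℂ N (∑ j, α j (u j) - N)).re ^ 2 ≤
      d * ((d : ℝ) - 1) * (∑ j, ν j ^ 2) * (∑ j, ‖u j‖ ^ 2 - ∑ j, ν j ^ 2) := by
  have hD : (2 : ℝ) ≤ d := by exact_mod_cast hd
  have n1 : ∀ j (x : S), ‖α j x‖ = ‖x‖ := fun j x => by
    rw [← cl_basis e α j, norm_cl_apply h, e.orthonormal.1 j, one_mul]
  have sa : ∀ j (x y : S), inner ℂ (α j x) y = inner ℂ x (α j y) := fun j x y => by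
    rw [← cl_basis e α j, inner_cl h]
  have aa : ∀ j (x : S), α j (α j x) = x := fun j x => by
    have := congrArg (fun T : S →L[ℂ] S => T x) (JK.cl_mul_self e h (e j))
    simpa [cl_basis, e.orthonormal.1 j] using this
  have oo : ∀ j k, (inner ℂ (α j χ) (α k χ)).re = if j = k then 1 else 0 := fun j k => by
    rw [← cl_basis e α j, ← cl_basis e α k, re_inner_cl_cl h, hχ, e.inner_eq_ite]
    simp
  have f1 : ∀ j, (inner ℂ (α j χ) N).re = ν j := fun j => by
    simp only [hN, inner_sum, inner_smul_right, Complex.re_sum, Complex.re_ofReal_mul, oo]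
    simp
  have f2 : ‖N‖ ^ 2 = ∑ j, ν j ^ 2 := by
    rw [← inner_self_eq_norm_sq (𝕜 := ℂ) N]
    nth_rewrite 1 [hN]
    simp only [sum_inner, inner_smul_left, Complex.conj_ofReal, RCLike.re_to_complex,
      Complex.re_sum, Complex.re_ofReal_mul, f1, sq]
  have cc : (inner ℂ χ χ).re = 1 := by
    have := inner_self_eq_norm_sq (𝕜 := ℂ) χ
    rw [hχ] at this
    simpa using this
  set ξ : Fin d → S := fun j => u j - (ν j : ℂ) • χ with hξ
  set z : Fin d → S := fun j => α j N - (ν j : ℂ) • χ with hz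
  have s1 : ∑ j, α j (ξ j) = ∑ j, α j (u j) - N := by
    simp only [hξ, map_sub, map_smul, Finset.sum_sub_distrib, hN]
  have s2 : ∑ j, α j (z j) = (((d : ℝ) - 1 : ℝ) : ℂ) • N := by
    simp only [hz, map_sub, map_smul, Finset.sum_sub_distrib, aa, ← hN, Finset.sum_const,
      Finset.card_univ, Fintype.card_fin]
    push_cast
    rw [sub_smul, one_smul, Nat.cast_smul_eq_nsmul]
  have s3 : ∀ j, ‖ξ j‖ ^ 2 = ‖u j‖ ^ 2 - ν j ^ 2 := fun j => by
    rw [hξ, nsq, ← hν, hχ]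
    ring
  have s4 : ∀ j, ‖z j‖ ^ 2 = ∑ k, ν k ^ 2 - ν j ^ 2 := fun j => by
    rw [hz, nsq, n1, ← sa, f1, hχ, f2]
    ring
  have s5 : ∀ j, (inner ℂ (z j) (ξ j)).re = (inner ℂ N (α j (ξ j))).re := fun j => by
    have : (inner ℂ χ (ξ j)).re = 0 := by
      simp only [hξ, inner_sub_right, inner_smul_right, Complex.sub_re, Complex.re_ofReal_mul, cc,
        ← hν]
      ring
    simp only [hz, inner_sub_left, inner_smul_left, Complex.conj_ofReal, Complex.sub_re,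
      Complex.re_ofReal_mul, this, sa, mul_zero, sub_zero]
  set g := ∑ j, ν j ^ 2 with hg
  set Y := ∑ j, α j (u j) - N with hY
  set q := ∑ j, ‖u j‖ ^ 2 - g with hq
  have quad : ∀ t : ℝ, 0 ≤ ((d : ℝ) - 1) * g * (t * t) + -(2 * (inner ℂ N Y).re) * t +
      (d * q - ‖Y‖ ^ 2) := by
    intro t
    have c1 : ‖∑ j, α j (ξ j - (t : ℂ) • z j)‖ ^ 2 ≤ d * ∑ j, ‖ξ j - (t : ℂ) • z j‖ ^ 2 := by
      refine (pow_le_pow_left₀ (norm_nonneg _) (norm_sum_le _ _) 2).trans ?_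
      simp only [n1]
      simpa using sq_sum_le_card_mul_sum_sq (s := Finset.univ)
        (f := fun j => ‖ξ j - (t : ℂ) • z j‖)
    have c2 : ∑ j, α j (ξ j - (t : ℂ) • z j) = Y - ((t * ((d : ℝ) - 1) : ℝ) : ℂ) • N := by
      simp only [map_sub, map_smul, Finset.sum_sub_distrib, ← Finset.smul_sum, s1, s2, smul_smul,
        Complex.ofReal_mul]
    have c3 : ∑ j, ‖ξ j - (t : ℂ) • z j‖ ^ 2 =
        q - 2 * t * (inner ℂ N Y).re + t ^ 2 * (((d : ℝ) - 1) * g) := by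
      simp only [nsq, s3, s4, s5, Finset.sum_add_distrib, Finset.sum_sub_distrib,
        ← Finset.mul_sum, ← Complex.re_sum, ← inner_sum, s1, Finset.sum_const, Finset.card_univ,
        Fintype.card_fin, nsmul_eq_mul, ← hg]
      ring
    rw [c2, c3, nsq, f2] at c1
    nlinarith
  have := discrim_le_zero quad
  unfold discrim at this
  nlinarith

end Alg2

theorem stAlg2 (hc : Ctx α β m) (hA : StAlg e α) : StAlg2 e α := by
  intro u hu x hx
  obtain ⟨-, -, h3, -⟩ := hA u hu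
  obtain ⟨-, -, -, h4, h5⟩ := h3 x hx
  have h0 : 0 < ‖u x‖ := norm_pos_iff.mpr hx
  have := Alg2.key hc.rep e hc.two (χ := ((‖u x‖⁻¹ : ℝ) : ℂ) • u x)
    (by rw [norm_smul, Complex.norm_real, norm_inv, norm_norm, inv_mul_cancel₀ h0.ne'])
    (fun j => fderiv ℝ u x (e j)) (fun j => fderiv ℝ (fun y => ‖u y‖) x (e j))
    (fun j => by
      rw [inner_smul_left, Complex.conj_ofReal, Complex.re_ofReal_mul, ← h4 j]
      field_simp)
    (N := Nv e α u x) (by
      unfold Nv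
      refine Finset.sum_congr rfl fun j _ => ?_
      rw [map_smul, smul_smul, ← Complex.ofReal_mul, div_eq_mul_inv])
  unfold nf Pf qf G2 Zf
  rw [h5]
  exact this

end Pool.Agent.MP_e4cac8_mp
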