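import Pool.Agent.MP_e4cac8_mp.Base

/-! The Euler-Lagrange equation where the potential vanishes. -/

open Set MeasureTheory Filter Topology
open scoped ENNReal NNReal SchwartzMap
open Pool.Agent.MP_0b7119_mp.G

namespace Pool.Agent.MP_e4cac8_mp

set_option linter.unusedSectionVars false

variable {E S : Type} [NormedAddCommGroup E] [InnerProductSpace ℝ E] [FiniteDimensional ℝ E]
  [MeasurableSpace E] [BorelSpace E] [NormedAddCommGroup S] [InnerProductSpace ℂ S]
  [CompleteSpace S] [FiniteDimensional ℂ S] {d : ℕ}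

namespace EL2

theorem pot {p A M η ε : ℝ} {V : E → ℝ} {B : Set E} (hp : 1 < p) (hV : PotR p A V)
    (hVM : ∀ x, V x ≤ M) (hB : MeasurableSet B) (hBf : volume B ≠ ∞) (hB0 : ∀ x ∈ B, V x = 0)
    (hη0 : 0 ≤ η) (hη1 : η ≤ 1) (hε0 : 0 ≤ ε) (hεM : ε ≤ M)
    (hη : ε ^ p * volume.real B ≤ η * ∫ x, V x ^ p) :
    PotR p A (fun x => (1 - η) * V x + B.indicator (fun _ => ε) x) ∧
      ∀ x, (1 - η) * V x + B.indicator (fun _ => ε) x ≤ M := by
  have h1 : 0 ≤ 1 - η := by linarith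
  have he : (fun x => ((1 - η) * V x + B.indicator (fun _ => ε) x) ^ p) =
      fun x => (1 - η) ^ p * V x ^ p + B.indicator (fun _ => ε ^ p) x := by
    ext x
    by_cases hx : x ∈ B
    · simp [hx, hB0 x hx, Real.zero_rpow (by linarith : p ≠ 0)]
    · simp [hx, Real.mul_rpow h1 (hV.nonneg x)]
  have hi : Integrable (B.indicator fun _ : E => ε ^ p) volume :=
    (integrableOn_const hBf).integrable_indicator hB
  refine ⟨⟨(hV.meas.const_mul _).add (measurable_const.indicator hB), fun x => ?_, ?_, ?_⟩,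
    fun x => ?_⟩
  · exact add_nonneg (mul_nonneg h1 (hV.nonneg x)) (indicator_nonneg (fun _ _ => hε0) x)
  · rw [he]
    exact (hV.int.const_mul _).add hi
  · rw [he, integral_add (hV.int.const_mul _) hi, integral_const_mul, integral_indicator_const _ hB,
      smul_eq_mul]
    have h2 : (1 - η) ^ p ≤ 1 - η := by
      have := Real.rpow_le_rpow_of_exponent_ge' h1 (by linarith : 1 - η ≤ 1) zero_le_one hp.le
      rwa [Real.rpow_one] at this
    have h3 : 0 ≤ ∫ x, V x ^ p := integral_nonneg fun x => Real.rpow_nonneg (hV.nonneg x) _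
    have h4 := mul_le_mul_of_nonneg_right h2 h3
    have h5 := hV.le
    nlinarith
  · by_cases hx : x ∈ B
    · simp [hx, hB0 x hx, hεM]
    · have := hVM x
      have := mul_nonneg hη0 (hV.nonneg x)
      simp only [indicator_of_notMem hx]
      nlinarith

theorem ineq {r : E → S →L[ℂ] S} (hr : Ks r) (hi : Integrable r volume) {M η ε : ℝ} {V : E → ℝ}
    {ψ : E → S} {B : Set E} (hV : Measurable V) (hV0 : ∀ x, 0 ≤ V x) (hVM : ∀ x, V x ≤ M)
    (hψ : FixB r V ψ) (hB : MeasurableSet B) (hB0 : ∀ x ∈ B, V x = 0) (hη1 : η < 1) (hε0 : 0 ≤ ε)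
    (hbs : BS r (fun x => (1 - η) * V x + B.indicator (fun _ => ε) x) 1) :
    (∫ x, V x * ‖ψ x‖ ^ 2) + 2 * ε * JD.I2 (B.indicator ψ) +
        ε ^ 2 * Bf r (B.indicator ψ) (B.indicator ψ) ≤
      (1 - η)⁻¹ * (∫ x, V x * ‖ψ x‖ ^ 2) + ε * JD.I2 (B.indicator ψ) := by
  have h1 : 0 < 1 - η := by linarith
  have hA := adm_of_bdd hV hV0 hVM hi.norm fun _ => norm_nonneg _
  have hs := memLp_sv hV hVM hψ.fix.l2
  have hF := memLp_sv hV hVM hs
  have hG : MemLp (B.indicator ψ) 2 volume := hψ.fix.l2.indicator hB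
  set F := sv V (sv V ψ) with hFd
  set G := B.indicator ψ with hGd
  set g : E → S := fun x => (((√(1 - η))⁻¹ : ℝ) : ℂ) • sv V ψ x + ((√ε : ℝ) : ℂ) • G x with hg
  have hgl : MemLp g 2 volume := (hs.const_smul _).add (hG.const_smul _)
  have hsq : √(1 - η) ≠ 0 := (Real.sqrt_pos.2 h1).ne'
  have e1 : sv (fun x => (1 - η) * V x + B.indicator (fun _ => ε) x) g =
      fun x => F x + (ε : ℂ) • G x := by
    ext x
    by_cases hx : x ∈ B
    · simp only [sv, hg, hFd, hGd, indicator_of_mem hx, hB0 x hx, mul_zero, zero_add,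
        Real.sqrt_zero, Complex.ofReal_zero, zero_smul, smul_zero, smul_smul,
        ← Complex.ofReal_mul, Real.mul_self_sqrt hε0]
    · simp only [sv, hg, hFd, hGd, indicator_of_notMem hx, add_zero, smul_zero, smul_smul,
        ← Complex.ofReal_mul, Real.sqrt_mul h1.le]
      congr 2
      field_simp
  have e2 : JD.I2 g = (1 - η)⁻¹ * (∫ x, V x * ‖ψ x‖ ^ 2) + ε * JD.I2 G := by
    unfold JD.I2
    rw [← integral_const_mul, ← integral_const_mul,
      ← integral_add (hψ.fix.intV.const_mul _) ((JD.int_sq hG).const_mul _)]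
    congr 1
    ext x
    by_cases hx : x ∈ B
    · simp only [sv, hg, hGd, indicator_of_mem hx, hB0 x hx, Real.sqrt_zero, Complex.ofReal_zero,
        zero_smul, smul_zero, zero_add, zero_mul, mul_zero, norm_smul, Complex.norm_real,
        Real.norm_of_nonneg (Real.sqrt_nonneg _), mul_pow, Real.sq_sqrt hε0]
    · simp only [hg, hGd, indicator_of_notMem hx, add_zero, smul_zero, norm_smul, norm_sv,
        Complex.norm_real, norm_inv, Real.norm_of_nonneg (Real.sqrt_nonneg _), mul_pow, inv_pow,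
        Real.sq_sqrt h1.le, Real.sq_sqrt (hV0 x), norm_zero]
      ring
  have hb : ∀ {u v : E → S}, MemLp u 2 volume → MemLp v 2 volume →
      Integrable (bi r u v) (volume.prod volume) := fun hu hv =>
    int_bi hr.meas hu.1 hv.1 (schur_l2 hr hi hu hv).1
  have hFG : MemLp (fun x => F x + (ε : ℂ) • G x) 2 volume := hF.add (hG.const_smul _)
  have e3 : Bf r G F = JD.I2 G := by
    rw [Bf_eq hr.meas hG.1 hF.1 (schur_l2 hr hi hG hF).1, hFd, sv_sv hV0, ← Rop_eq_cv]
    unfold JD.I2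
    congr 1
    ext x
    rw [← hψ.eq x]
    by_cases hx : x ∈ B
    · simp only [hGd, indicator_of_mem hx]
      exact inner_self_eq_norm_sq (𝕜 := ℂ) (ψ x)
    · simp [hGd, indicator_of_notMem hx]
  have h2 := hbs g hgl
  rw [e1, e2, one_mul, Bf_add_left (hb hF hFG) (hb hG hFG), Bf_add_right (hb hF hF) (hb hF hG),
    Bf_add_right (hb hG hF) (hb hG hG), Bf_symm hr F G, e3, (hψ.fix.form hr hV hV0 hA).1] at h2
  nlinarith

theorem lim {p M I J C c : ℝ} (hp : 1 < p) (hM : 0 < M) (hI : 0 ≤ I) (hc : 0 ≤ c)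
    (h : ∀ ε : ℝ, 0 < ε → ε ≤ M → ε ^ p * c < 1 →
      I + 2 * ε * J + ε ^ 2 * C ≤ (1 - ε ^ p * c)⁻¹ * I + ε * J) : J ≤ 0 := by
  have ht : ∀ q : ℝ, 0 < q → Tendsto (fun ε : ℝ => ε ^ q) (𝓝[>] 0) (𝓝 0) := fun q hq => by
    have := (Real.continuousAt_rpow_const 0 q (Or.inr hq.le)).tendsto
    rw [Real.zero_rpow hq.ne'] at this
    exact this.mono_left nhdsWithin_le_nhds
  have t1 : Tendsto (fun ε : ℝ => ε ^ p * c) (𝓝[>] 0) (𝓝 0) := by
    simpa using (ht p (by linarith)).mul_const c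
  have t2 : Tendsto (fun ε : ℝ => 2 * I * (ε ^ (p - 1) * c) - ε * C) (𝓝[>] 0) (𝓝 0) := by
    have a1 : Tendsto (fun ε : ℝ => ε) (𝓝[>] 0) (𝓝 0) := tendsto_id.mono_left nhdsWithin_le_nhds
    simpa using ((((ht (p - 1) (by linarith)).mul_const c).const_mul (2 * I)).sub
      (a1.mul_const C))
  refine ge_of_tendsto t2 ?_
  filter_upwards [t1.eventually (Iio_mem_nhds (by norm_num : (0 : ℝ) < 1 / 2)),
    Ioo_mem_nhdsGT hM] with ε h1 h2
  have hε : 0 < ε := h2.1
  have h1' : ε ^ p * c < 1 / 2 := h1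
  have hη0 : 0 ≤ ε ^ p * c := by positivity
  have a3 := h ε hε h2.2.le (by linarith)
  have a5 : ε ^ p * c = ε * (ε ^ (p - 1) * c) := by
    rw [Real.rpow_sub_one hε.ne']
    field_simp
  generalize ε ^ p * c = η at *
  have a4 : (1 - η)⁻¹ ≤ 1 + 2 * η := by
    rw [inv_le_iff_one_le_mul₀ (by linarith)]
    nlinarith
  have a6 := mul_le_mul_of_nonneg_right a4 hI
  refine le_of_mul_le_mul_left ?_ hε
  have a7 : ε * (2 * I * (ε ^ (p - 1) * c) - ε * C) = 2 * η * I - ε ^ 2 * C := by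
    rw [a5]
    ring
  rw [a7]
  linarith

theorem ppos {p A : ℝ} {V f : E → ℝ} (hp : 1 < p) (hV : PotR p A V) (hI : 0 < ∫ x, V x * f x) :
    0 < ∫ x, V x ^ p := by
  have h2 : 0 ≤ fun x => V x ^ p := fun x => Real.rpow_nonneg (hV.nonneg x) _
  refine (integral_nonneg h2).lt_of_ne fun h0 => ?_
  have h1 := (integral_eq_zero_iff_of_nonneg h2 hV.int).mp h0.symm
  refine hI.ne' (integral_eq_zero_of_ae ?_)
  filter_upwards [h1] with x hx
  have h3 : V x ^ p = 0 := hx
  have h4 := (Real.rpow_eq_zero (hV.nonneg x) (by linarith : p ≠ 0)).1 h3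
  show V x * f x = 0
  rw [h4, zero_mul]

theorem zero_of {G : E → S} (hG : MemLp G 2 volume) (h : JD.I2 G ≤ 0) : ∀ᵐ x, G x = 0 := by
  have h2 : 0 ≤ fun x => ‖G x‖ ^ 2 := fun x => sq_nonneg _
  have h1 := (integral_eq_zero_iff_of_nonneg h2 (JD.int_sq hG)).mp
    (le_antisymm h (integral_nonneg h2))
  filter_upwards [h1] with x hx
  have h3 : ‖G x‖ ^ 2 = 0 := hx
  exact norm_eq_zero.mp (pow_eq_zero_iff two_ne_zero |>.mp h3)

theorem loc {r : E → S →L[ℂ] S} (hr : Ks r) (hi : Integrable r volume) {p A M : ℝ} {V : E → ℝ}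
    {ψ : E → S} {B : Set E} (hp : 1 < p) (hM : 0 < M) (hV : PotR p A V) (hVM : ∀ x, V x ≤ M)
    (hP : HP r p A M) (hψ : FixB r V ψ) (hB : MeasurableSet B) (hBf : volume B ≠ ∞)
    (hB0 : ∀ x ∈ B, V x = 0) : ∀ᵐ x, x ∈ B → ψ x = 0 := by
  have hA := adm_of_bdd hV.meas hV.nonneg hVM hi.norm fun _ => norm_nonneg _
  have hI := (hψ.fix.form hr hV.meas hV.nonneg hA).2
  have hP0 := ppos hp hV hI
  have hc : 0 ≤ volume.real B / ∫ x, V x ^ p := div_nonneg measureReal_nonneg hP0.le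
  have hJ : JD.I2 (B.indicator ψ) ≤ 0 := by
    refine lim (C := Bf r (B.indicator ψ) (B.indicator ψ)) hp hM hI.le hc fun ε hε h2 h1 => ?_
    have a0 : ε ^ p * volume.real B ≤ ε ^ p * (volume.real B / ∫ x, V x ^ p) * ∫ x, V x ^ p := by
      rw [mul_assoc, div_mul_cancel₀ _ hP0.ne']
    have a := pot hp hV hVM hB hBf hB0
      (mul_nonneg (Real.rpow_nonneg hε.le p) hc) h1.le hε.le h2 a0
    have a3 := hP _ a.1 a.2
    exact ineq hr hi hV.meas hV.nonneg hVM hψ hB hB0 h1 hε.le a3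
  have hG : MemLp (B.indicator ψ) 2 volume := hψ.fix.l2.indicator hB
  exact (zero_of hG hJ).mono fun x hx hxB => (indicator_of_mem hxB ψ).symm.trans hx

end EL2

variable {e : OrthonormalBasis (Fin d) ℝ E} {α : Fin d → S →L[ℂ] S} {β : S →L[ℂ] S} {m : ℝ}

theorem stEL2 (hc : Ctx α β m) : StEL2 e α β m := by
  intro l hl p A M V ψ hp _ hM hV hVM hP hψ
  have h : ∀ n : ℕ, ∀ᵐ x, x ∈ V ⁻¹' {0} ∩ Metric.ball (0 : E) n → ψ x = 0 := fun n =>
    EL2.loc (ks_rk hc.rep e m l) (integrable_rk hc.rep e hl) hp hM hV hVM hP hψ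
      ((hV.meas (measurableSet_singleton 0)).inter measurableSet_ball)
      ((measure_mono inter_subset_right).trans_lt measure_ball_lt_top).ne fun x hx => hx.1
  filter_upwards [ae_all_iff.2 h] with x hx h0
  obtain ⟨n, hn⟩ := exists_nat_gt ‖x‖
  exact hx n ⟨h0, mem_ball_zero_iff.2 hn⟩

end Pool.Agent.MP_e4cac8_mp
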